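import Pool.Agent.TH700.PA.Density
import Pool.Agent.TH700.PA.GameTight
import Mathlib.Combinatorics.SimpleGraph.Basic
import Mathlib.Analysis.Complex.Exponential
import Mathlib.Analysis.SpecialFunctions.Pow.Real
import Mathlib.Tactic

/-!
# Graphs made of perfect matchings between the pairs of `n` blocks, and small set expansion
-/

set_option autoImplicit false

open Finset

namespace Pool.Agent.V11163.SS

variable {n q t : ℕ}

/-- The pairs of blocks. -/
abbrev E (n : ℕ) : Type := {e : Fin n × Fin n // e.1 < e.2}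

/-- The graph with `n` blocks of `q` vertices in which the blocks `u < v` are joined by the perfect
matching `a ↦ x (u, v) a`. -/
def Gr (x : E n → Equiv.Perm (Fin q)) : SimpleGraph (Fin n × Fin q) where
  Adj v w := (∃ h : v.1 < w.1, x ⟨(v.1, w.1), h⟩ v.2 = w.2) ∨
    (∃ h : w.1 < v.1, x ⟨(w.1, v.1), h⟩ w.2 = v.2)
  symm := ⟨fun _ _ h => h.symm⟩
  loopless := ⟨fun _ h => h.elim (fun h => lt_irrefl _ h.1) (fun h => lt_irrefl _ h.1)⟩

/-- The number of edges which leave `S`. -/
noncomputable def cut {V : Type} (G : SimpleGraph V) (S : Finset V) : ℕ :=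
  Nat.card {p : V × V // p.1 ∈ S ∧ p.2 ∉ S ∧ G.Adj p.1 p.2}

/-- The graph is regular of degree `n - 1`. -/
theorem regular (x : E n → Equiv.Perm (Fin q)) (v : Fin n × Fin q) :
    Nat.card {w // (Gr x).Adj v w} = n - 1 := by
  classical
  have h1 : Nat.card {w // (Gr x).Adj v w} = Nat.card {u : Fin n // u ≠ v.1} := by
    refine Nat.card_congr ?_
    refine ⟨fun w => ⟨w.1.1, fun h => ?_⟩, fun u => ⟨(u.1, if h : v.1 < u.1 then
      x ⟨(v.1, u.1), h⟩ v.2 else if h' : u.1 < v.1 then (x ⟨(u.1, v.1), h'⟩).symm v.2 else v.2),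
      ?_⟩, fun w => ?_, fun u => ?_⟩
    · rcases w.2 with ⟨h1, -⟩ | ⟨h1, -⟩
      · exact absurd h.symm h1.ne
      · exact absurd h h1.ne
    · rcases lt_trichotomy v.1 u.1 with h | h | h
      · left
        exact ⟨h, by rw [dif_pos h]⟩
      · exact absurd h.symm u.2
      · right
        refine ⟨h, ?_⟩
        simp only
        rw [dif_neg h.asymm, dif_pos h, Equiv.apply_symm_apply]
    · apply Subtype.ext
      refine Prod.ext rfl ?_
      simp only
      rcases w.2 with ⟨h, h1⟩ | ⟨h, h1⟩
      · rw [dif_pos h]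
        exact h1
      · rw [dif_neg h.asymm, dif_pos h]
        exact (Equiv.symm_apply_eq _).2 h1.symm
    · rfl
  rw [h1, Nat.card_eq_fintype_card, Fintype.card_subtype_compl, Fintype.card_fin,
    Fintype.card_subtype_eq]

/-- The number of edges inside `S`. -/
def inn (x : E n → Equiv.Perm (Fin q)) (S : Finset (Fin n × Fin q)) : ℕ :=
  (univ.filter (fun r : E n × Fin q => (r.1.1.1, r.2) ∈ S ∧ (r.1.1.2, x r.1 r.2) ∈ S)).card

theorem cut_ge (x : E n → Equiv.Perm (Fin q)) (S : Finset (Fin n × Fin q)) :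
    S.card * (n - 1) ≤ cut (Gr x) S + 2 * inn x S := by
  classical
  have h1 : S.card * (n - 1) = (univ.filter (fun p : (Fin n × Fin q) × (Fin n × Fin q) =>
      p.1 ∈ S ∧ (Gr x).Adj p.1 p.2)).card := by
    rw [card_eq_sum_card_fiberwise (f := fun p : (Fin n × Fin q) × (Fin n × Fin q) => p.1) (t := S)
      (fun p hp => by simpa using (mem_filter.1 hp).2.1)]
    rw [← smul_eq_mul, ← sum_const]
    refine sum_congr rfl fun v hv => ?_
    rw [← regular x v, Nat.card_eq_fintype_card, Fintype.card_subtype]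
    refine card_bij (fun w _ => (v, w)) (fun w hw => ?_) (fun w _ w' _ h => (Prod.ext_iff.1 h).2)
      (fun p hp => ?_)
    · rw [mem_filter, mem_filter]
      exact ⟨⟨mem_univ _, hv, (mem_filter.1 hw).2⟩, rfl⟩
    · rw [mem_filter, mem_filter] at hp
      obtain ⟨⟨-, -, h2⟩, rfl⟩ := hp
      exact ⟨p.2, mem_filter.2 ⟨mem_univ _, h2⟩, rfl⟩
  rw [h1]
  have h2 : (univ.filter (fun p : (Fin n × Fin q) × (Fin n × Fin q) =>
      p.1 ∈ S ∧ (Gr x).Adj p.1 p.2)) ⊆
      (univ.filter (fun p : (Fin n × Fin q) × (Fin n × Fin q) =>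
        p.1 ∈ S ∧ p.2 ∉ S ∧ (Gr x).Adj p.1 p.2)) ∪
      ((univ.filter (fun r : E n × Fin q => (r.1.1.1, r.2) ∈ S ∧ (r.1.1.2, x r.1 r.2) ∈ S)).image
        (fun r => ((r.1.1.1, r.2), (r.1.1.2, x r.1 r.2))) ∪
      (univ.filter (fun r : E n × Fin q => (r.1.1.1, r.2) ∈ S ∧ (r.1.1.2, x r.1 r.2) ∈ S)).image
        (fun r => ((r.1.1.2, x r.1 r.2), (r.1.1.1, r.2)))) := by
    intro p hp
    obtain ⟨-, h3, h4⟩ := mem_filter.1 hp
    rw [mem_union, mem_union]
    by_cases h5 : p.2 ∈ S
    · right
      rcases h4 with ⟨h, h6⟩ | ⟨h, h6⟩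
      · left
        refine mem_image.2 ⟨(⟨(p.1.1, p.2.1), h⟩, p.1.2), mem_filter.2 ⟨mem_univ _, h3, ?_⟩, ?_⟩
        · simp only
          rw [h6]
          exact h5
        · simp only
          rw [h6]
      · right
        refine mem_image.2 ⟨(⟨(p.2.1, p.1.1), h⟩, p.2.2), mem_filter.2 ⟨mem_univ _, h5, ?_⟩, ?_⟩
        · simp only
          rw [h6]
          exact h3
        · simp only
          rw [h6]
    · left
      exact mem_filter.2 ⟨mem_univ _, h3, h5, h4⟩
  refine (card_le_card h2).trans ((card_union_le _ _).trans (Nat.add_le_add ?_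
    ((card_union_le _ _).trans ?_)))
  · unfold cut
    rw [Nat.card_eq_fintype_card, Fintype.card_subtype]
  · rw [two_mul]
    exact Nat.add_le_add card_image_le card_image_le

/-- The permutation corrected such that the value at `a` is `b`. -/
def fix (π : Equiv.Perm (Fin q)) (a b : Fin q) : Equiv.Perm (Fin q) := Equiv.swap (π a) b * π

theorem fix_self (π : Equiv.Perm (Fin q)) (a b : Fin q) : fix π a b a = b :=
  Equiv.swap_apply_left _ _

theorem fix_mul {τ : Equiv.Perm (Fin q)} {b : Fin q} (hτ : τ b = b) (π : Equiv.Perm (Fin q))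
    (a : Fin q) : fix (τ * π) a b = τ * fix π a b := by
  unfold fix
  have h1 : Equiv.swap ((τ * π) a) b = τ * Equiv.swap (π a) b * τ⁻¹ := by
    rw [Equiv.Perm.mul_apply]
    conv_lhs => rw [← hτ]
    rw [Equiv.swap_apply_apply]
  rw [h1]
  group

/-- The values of the corrected permutation at the other places are nearly uniform. -/
theorem card_fix {a a' : Fin q} (haa : a ≠ a') (b b' : Fin q) :
    (q - 1) * (univ.filter (fun π : Equiv.Perm (Fin q) => fix π a b a' = b')).card ≤
      Fintype.card (Equiv.Perm (Fin q)) := by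
  classical
  by_cases hbb : b' = b
  · have h1 : univ.filter (fun π : Equiv.Perm (Fin q) => fix π a b a' = b') = ∅ := by
      rw [filter_eq_empty_iff]
      intro π _ h
      exact haa ((fix π a b).injective (h.trans (hbb.trans (fix_self π a b).symm))).symm
    rw [h1, card_empty, mul_zero]
    exact Nat.zero_le _
  · have h1 : ∀ c ∈ (univ : Finset (Fin q)).erase b,
        (univ.filter (fun π : Equiv.Perm (Fin q) => fix π a b a' = b')).card ≤
        (univ.filter (fun π : Equiv.Perm (Fin q) => fix π a b a' = c)).card := by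
      intro c hc
      rw [mem_erase] at hc
      refine card_le_card_of_injOn (fun π => Equiv.swap b' c * π) (fun π hπ => ?_)
        (fun π _ π' _ h => mul_left_cancel h)
      rw [mem_coe, mem_filter] at hπ ⊢
      refine ⟨mem_univ _, ?_⟩
      rw [fix_mul (Equiv.swap_apply_of_ne_of_ne (Ne.symm hbb) hc.1.symm), Equiv.Perm.mul_apply,
        hπ.2, Equiv.swap_apply_left]
    calc (q - 1) * (univ.filter (fun π : Equiv.Perm (Fin q) => fix π a b a' = b')).card =
        ∑ _c ∈ (univ : Finset (Fin q)).erase b,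
          (univ.filter (fun π : Equiv.Perm (Fin q) => fix π a b a' = b')).card := by
          rw [sum_const, card_erase_of_mem (mem_univ _), card_univ, Fintype.card_fin, smul_eq_mul]
      _ ≤ ∑ c ∈ (univ : Finset (Fin q)).erase b,
          (univ.filter (fun π : Equiv.Perm (Fin q) => fix π a b a' = c)).card := sum_le_sum h1
      _ ≤ ∑ c : Fin q, (univ.filter (fun π : Equiv.Perm (Fin q) => fix π a b a' = c)).card :=
          sum_le_sum_of_subset (erase_subset _ _)
      _ = _ := by
          rw [← card_univ, card_eq_sum_card_fiberwise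
            (f := fun π : Equiv.Perm (Fin q) => fix π a b a') (t := univ) (fun _ _ => mem_univ _)]

end Pool.Agent.V11163.SS
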