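import Pool.Agent.V11163.SS.Mix
import Mathlib.Analysis.Complex.ExponentialBounds

/-!
# Small set expansion and read-once tensor networks
-/

set_option autoImplicit false

open Finset

namespace Pool.Agent.V11163.SS

open Pool.Agent.TH700.PA (Net mixp rand_density exists_product choose_mul_pow_le)

variable {n q t : ℕ}

theorem card_big (S : Finset (Fin n × Fin q)) (L : ℕ) :
    (univ.filter (fun u => L < sz S u)).card * L ≤ S.card := by
  rw [← sum_sz S, ← smul_eq_mul, ← sum_const]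
  refine (sum_le_sum fun u hu => ?_).trans (sum_le_sum_of_subset (filter_subset _ _))
  exact (mem_filter.1 hu).2.le

/-- The sets of coincidences. -/
theorem card_X1 [NeZero q] (hn : 1 ≤ n) (ht : 1 ≤ t) (hq : 64 * t ^ 3 ≤ q)
    (S : Finset (Fin n × Fin q)) (hS : S.card = n) :
    2 * (((4 * q) ^ n * q ^ n : ℕ) : ℝ) *
      (univ.filter (fun b : Fin t → Pat n q => 3 * n ≤ coin S b)).card ≤
      (Fintype.card (Pat n q) : ℝ) ^ t := by
  have htR : (1 : ℝ) ≤ t := by exact_mod_cast ht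
  have ht0 : (0 : ℝ) < t := by linarith
  have hqR : (64 : ℝ) * t ^ 3 ≤ q := by exact_mod_cast hq
  have hq0 : (0 : ℝ) < q := lt_of_lt_of_le (by positivity) hqR
  have hz : 1 ≤ (q : ℝ) / t := by
    rw [le_div_iff₀ ht0, one_mul]
    have : (t : ℝ) ≤ t ^ 3 := by
      have := pow_le_pow_right₀ htR (show 1 ≤ 3 by norm_num)
      simpa using this
    linarith
  have h1 := moment_coin (t := t) S hz
  obtain ⟨X, hX⟩ : ∃ X, X = univ.filter (fun b : Fin t → Pat n q => 3 * n ≤ coin S b) := ⟨_, rfl⟩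
  rw [← hX]
  have h2 : (X.card : ℝ) * ((q : ℝ) / t) ^ (3 * n) ≤
      ∑ b : Fin t → Pat n q, ((q : ℝ) / t) ^ coin S b := by
    rw [← nsmul_eq_mul, ← sum_const]
    refine (sum_le_sum fun b hb => ?_).trans
      (sum_le_sum_of_subset_of_nonneg (subset_univ X) fun b _ _ => by positivity)
    rw [hX] at hb
    exact pow_le_pow_right₀ hz (mem_filter.1 hb).2
  have h3 : (q : ℝ) / t * (t * S.card) / q = n * 1 := by
    rw [hS]
    field_simp
  rw [h3, Real.exp_nat_mul] at h1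
  have h4 : Real.exp 1 ^ n ≤ 3 ^ n := by
    refine pow_le_pow_left₀ (Real.exp_pos _).le ?_ _
    have := Real.exp_one_lt_d9
    linarith
  obtain ⟨C, hC⟩ : ∃ C, C = (Fintype.card (Pat n q) : ℝ) ^ t := ⟨_, rfl⟩
  have hC0 : 0 ≤ C := by rw [hC]; positivity
  rw [← hC] at h1 ⊢
  have h5 : (X.card : ℝ) * ((q : ℝ) / t) ^ (3 * n) ≤ C * 3 ^ n :=
    h2.trans (h1.trans (mul_le_mul_of_nonneg_left h4 hC0))
  have h6 : 2 * (((4 * q) ^ n * q ^ n : ℕ) : ℝ) * 3 ^ n ≤ ((q : ℝ) / t) ^ (3 * n) := by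
    have e1 : ((q : ℝ) / t) ^ (3 * n) = (q ^ 2) ^ n * (q / t ^ 3) ^ n := by
      rw [← mul_pow, pow_mul]
      congr 1
      field_simp
    have e2 : 2 * (((4 * q) ^ n * q ^ n : ℕ) : ℝ) * 3 ^ n = (q ^ 2) ^ n * (2 * 12 ^ n) := by
      push_cast
      have : (12 : ℝ) ^ n = 4 ^ n * 3 ^ n := by rw [← mul_pow]; norm_num
      rw [this, mul_pow, ← pow_mul, pow_mul', sq]
      ring
    rw [e1, e2]
    refine mul_le_mul_of_nonneg_left ?_ (by positivity)
    have e3 : (24 : ℝ) ≤ q / t ^ 3 := by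
      rw [le_div_iff₀ (by positivity)]
      have : (0 : ℝ) ≤ (t : ℝ) ^ 3 := by positivity
      linarith
    have e4 : (24 : ℝ) ^ n ≤ (q / t ^ 3) ^ n := pow_le_pow_left₀ (by norm_num) e3 _
    have e5 : (2 : ℝ) * 12 ^ n ≤ 24 ^ n := by
      have e6 : (24 : ℝ) ^ n = 2 ^ n * 12 ^ n := by rw [← mul_pow]; norm_num
      have e7 : (2 : ℝ) ≤ 2 ^ n := by
        have := pow_le_pow_right₀ (show (1 : ℝ) ≤ 2 by norm_num) hn
        simpa using this
      rw [e6]
      exact mul_le_mul_of_nonneg_right e7 (by positivity)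
    linarith
  have h7 : (0 : ℝ) < 3 ^ n := by positivity
  refine le_of_mul_le_mul_right ?_ h7
  calc 2 * (((4 * q) ^ n * q ^ n : ℕ) : ℝ) * X.card * 3 ^ n =
      (2 * (((4 * q) ^ n * q ^ n : ℕ) : ℝ) * 3 ^ n) * X.card := by ring
    _ ≤ ((q : ℝ) / t) ^ (3 * n) * X.card := mul_le_mul_of_nonneg_right h6 (Nat.cast_nonneg _)
    _ = X.card * ((q : ℝ) / t) ^ (3 * n) := mul_comm _ _
    _ ≤ _ := h5

open Classical in
/-- The sets of accidental edges. -/
theorem card_X2 [NeZero q] {g : ℕ} (hg : 1 ≤ g) (hn : 2048 * g ^ 2 ≤ n)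
    (ht : t = 9216 * g ^ 2 + 1) (hq : 64 * t ^ 3 ≤ q) (p : E n → Fin t)
    (S : Finset (Fin n × Fin q)) (hS : S.card = n) :
    2 * (((4 * q) ^ n * q ^ n : ℕ) : ℝ) *
      (univ.filter (fun b : Fin t → Pat n q => n ^ 2 ≤ 256 * g ^ 2 * acc S p b)).card ≤
      (Fintype.card (Pat n q) : ℝ) ^ t := by
  have hgR : (1 : ℝ) ≤ g := by exact_mod_cast hg
  have hg0 : (0 : ℝ) < g := by linarith
  have ht1 : 1 ≤ t := by omega
  have htR : (1 : ℝ) ≤ t := by exact_mod_cast ht1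
  have htg : (9216 : ℝ) * g ^ 2 ≤ t := by
    rw [ht]
    push_cast
    linarith
  have hqR : (64 : ℝ) * t ^ 3 ≤ q := by exact_mod_cast hq
  have hnR : (2048 : ℝ) * g ^ 2 ≤ n := by exact_mod_cast hn
  have hn0 : (0 : ℝ) < n := lt_of_lt_of_le (by positivity) hnR
  have hq64 : (64 : ℝ) ≤ q := by
    have : (1 : ℝ) ≤ t ^ 3 := one_le_pow₀ htR
    linarith
  have hq0 : (0 : ℝ) < q := by linarith
  have hq2 : 2 ≤ q := by
    have : (2 : ℝ) ≤ q := by linarith
    exact_mod_cast this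
  obtain ⟨r, hr⟩ : ∃ r, r = Real.sqrt q := ⟨_, rfl⟩
  have hr2 : r ^ 2 = q := by rw [hr]; exact Real.sq_sqrt hq0.le
  have hr0 : 0 < r := by rw [hr]; exact Real.sqrt_pos.2 hq0
  have hrt : 8 * t ≤ r := by
    have e1 : (8 * (t : ℝ)) ^ 2 ≤ r ^ 2 := by
      rw [hr2]
      have e2 : (t : ℝ) ^ 2 ≤ t ^ 3 := pow_le_pow_right₀ htR (by norm_num)
      nlinarith
    exact le_of_pow_le_pow_left₀ (by norm_num) hr0.le e1
  obtain ⟨ex, hex⟩ : ∃ ex, ex = Real.exp 1 := ⟨_, rfl⟩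
  have he1 : 1 ≤ ex := by rw [hex]; exact Real.one_le_exp (by norm_num)
  have he3 : ex ≤ 3 := by
    rw [hex]
    have := Real.exp_one_lt_d9
    linarith
  have hr1 : 1 ≤ r := by linarith
  have hz : 1 ≤ ex * r := one_le_mul_of_one_le_of_one_le he1 hr1
  have h1 := moment_acc (t := t) hq2 S p hz
  obtain ⟨A, hA⟩ : ∃ A : ℝ, A = (n : ℝ) ^ 2 / (256 * g ^ 2) := ⟨_, rfl⟩
  have hA8 : 8 * n ≤ A := by
    rw [hA, le_div_iff₀ (by positivity)]
    nlinarith
  have hA0 : 0 ≤ A := by rw [hA]; positivity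
  -- the exponent
  have h2 : ex * r * (S.card : ℝ) ^ 2 / (q - 1) ≤ A := by
    rw [hS, hA, div_le_div_iff₀ (by linarith) (by positivity)]
    have e1 : ex * r * (256 * g ^ 2) ≤ q - 1 := by
      have e2 : 768 * (g : ℝ) ^ 2 * r ≤ r ^ 2 - 1 := by
        have e3 : 768 * (g : ℝ) ^ 2 ≤ r / 2 := by nlinarith
        have e4 : 768 * (g : ℝ) ^ 2 * r ≤ r / 2 * r := mul_le_mul_of_nonneg_right e3 hr0.le
        have e5 : 2 ≤ r ^ 2 := by rw [hr2]; linarith
        nlinarith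
      have e6 : ex * r * (256 * g ^ 2) ≤ 3 * r * (256 * g ^ 2) := by
        refine mul_le_mul_of_nonneg_right (mul_le_mul_of_nonneg_right he3 hr0.le) (by positivity)
      rw [← hr2]
      linarith
    calc ex * r * (n : ℝ) ^ 2 * (256 * g ^ 2) = (ex * r * (256 * g ^ 2)) * (n : ℝ) ^ 2 := by ring
      _ ≤ (q - 1) * (n : ℝ) ^ 2 := mul_le_mul_of_nonneg_right e1 (by positivity)
      _ = _ := by ring
  obtain ⟨X, hX⟩ : ∃ X, X = univ.filter (fun b : Fin t → Pat n q =>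
    n ^ 2 ≤ 256 * g ^ 2 * acc S p b) := ⟨_, rfl⟩
  rw [← hX]
  obtain ⟨C, hC⟩ : ∃ C, C = (Fintype.card (Pat n q) : ℝ) ^ t := ⟨_, rfl⟩
  have hC0 : 0 ≤ C := by rw [hC]; positivity
  rw [← hC] at h1 ⊢
  have h3 : (X.card : ℝ) * (Real.exp A * q ^ (4 * n)) ≤
      ∑ b : Fin t → Pat n q, (ex * r) ^ acc S p b := by
    rw [← nsmul_eq_mul, ← sum_const]
    refine (sum_le_sum fun b hb => ?_).trans
      (sum_le_sum_of_subset_of_nonneg (subset_univ X) fun b _ _ => by positivity)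
    rw [hX] at hb
    have e1 := (mem_filter.1 hb).2
    have e2 : A ≤ acc S p b := by
      rw [hA, div_le_iff₀ (by positivity)]
      have e3 : ((n : ℝ) ^ 2) ≤ 256 * g ^ 2 * acc S p b := by exact_mod_cast e1
      linarith
    have e4 : (ex * r) ^ acc S p b = Real.exp (acc S p b) * r ^ (acc S p b) := by
      rw [mul_pow, hex, ← Real.exp_nat_mul, mul_one]
    rw [e4]
    refine mul_le_mul (Real.exp_le_exp.2 e2) ?_ (by positivity) (Real.exp_pos _).le
    have e5 : (8 * n : ℕ) ≤ acc S p b := by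
      have : (8 * (n : ℝ)) ≤ acc S p b := hA8.trans e2
      exact_mod_cast this
    have e6 : (q : ℝ) ^ (4 * n) = r ^ (8 * n) := by
      rw [← hr2, ← pow_mul]
      congr 1
      ring
    rw [e6]
    exact pow_le_pow_right₀ hr1 e5
  have h4 : (X.card : ℝ) * (Real.exp A * q ^ (4 * n)) ≤ C * Real.exp A :=
    h3.trans (h1.trans (mul_le_mul_of_nonneg_left (Real.exp_le_exp.2 h2) hC0))
  have h5 : (X.card : ℝ) * q ^ (4 * n) ≤ C := by
    refine le_of_mul_le_mul_right ?_ (Real.exp_pos A)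
    calc (X.card : ℝ) * q ^ (4 * n) * Real.exp A = X.card * (Real.exp A * q ^ (4 * n)) := by ring
      _ ≤ _ := h4
  have h6 : 2 * (((4 * q) ^ n * q ^ n : ℕ) : ℝ) ≤ (q : ℝ) ^ (4 * n) := by
    have hn1 : 1 ≤ n := by
      have : (1 : ℝ) ≤ n := by nlinarith
      exact_mod_cast this
    push_cast
    have e1 : (2 : ℝ) ≤ 2 ^ n := by
      have := pow_le_pow_right₀ (show (1 : ℝ) ≤ 2 by norm_num) hn1
      simpa using this
    have e2 : (2 : ℝ) * ((4 * q) ^ n * q ^ n) ≤ 2 ^ n * ((4 * q) ^ n * q ^ n) :=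
      mul_le_mul_of_nonneg_right e1 (by positivity)
    have e3 : (2 : ℝ) ^ n * ((4 * q) ^ n * q ^ n) = (8 * q ^ 2) ^ n := by
      rw [← mul_pow, ← mul_pow]
      congr 1
      ring
    have e4 : (8 * (q : ℝ) ^ 2) ^ n ≤ (q ^ 4) ^ n := by
      refine pow_le_pow_left₀ (by positivity) ?_ _
      nlinarith [sq_nonneg (q : ℝ), pow_le_pow_left₀ (by norm_num) hq64 2]
    rw [← pow_mul] at e4
    linarith
  calc 2 * (((4 * q) ^ n * q ^ n : ℕ) : ℝ) * X.card ≤ (q : ℝ) ^ (4 * n) * X.card :=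
        mul_le_mul_of_nonneg_right h6 (Nat.cast_nonneg _)
    _ = X.card * q ^ (4 * n) := mul_comm _ _
    _ ≤ _ := h5

/-- Most mixtures have no dense small set. -/
theorem few_bad [NeZero q] {g y : ℕ} (hg : 1 ≤ g) (hn : 2048 * g ^ 2 ≤ n)
    (hy : 48 * g * y ≤ n) (ht : t = 9216 * g ^ 2 + 1) (hq : 64 * t ^ 3 ≤ q) (p : E n → Fin t)
    (hp : ∀ j, (univ.filter (fun e => p e = j)).card ≤ 2 * y ^ 2) :
    ∃ B : Finset (Fin t → Pat n q), (∀ b, (∃ S : Finset (Fin n × Fin q), S.card = n ∧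
      n ^ 2 < 4 * g * inn (mixp p gm b) S) → b ∈ B) ∧
      B.card * q ^ n ≤ Fintype.card (Pat n q) ^ t := by
  classical
  have hn1 : 1 ≤ n := by
    have : 0 < g ^ 2 := by positivity
    omega
  obtain ⟨X1, hX1⟩ : ∃ X1 : Finset (Fin n × Fin q) → Finset (Fin t → Pat n q), X1 = fun S =>
    univ.filter (fun b => 3 * n ≤ coin S b) := ⟨_, rfl⟩
  obtain ⟨X2, hX2⟩ : ∃ X2 : Finset (Fin n × Fin q) → Finset (Fin t → Pat n q), X2 = fun S =>
    univ.filter (fun b => n ^ 2 ≤ 256 * g ^ 2 * acc S p b) := ⟨_, rfl⟩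
  refine ⟨(powersetCard n (univ : Finset (Fin n × Fin q))).biUnion (fun S => X1 S ∪ X2 S),
    fun b hb => ?_, ?_⟩
  · obtain ⟨S, hS, hlt⟩ := hb
    rw [mem_biUnion]
    refine ⟨S, mem_powersetCard.2 ⟨subset_univ _, hS⟩, ?_⟩
    rw [mem_union]
    by_contra hcon
    push Not at hcon
    obtain ⟨h1, h2⟩ := hcon
    rw [hX1, mem_filter, not_and, not_le] at h1
    rw [hX2, mem_filter, not_and, not_le] at h2
    have h1' := h1 (mem_univ _)
    have h2' := h2 (mem_univ _)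
    have h3 := inn_le S p b (16 * g)
    have h4 := card_ag S p b hp
    have h5 := card_big S (16 * g)
    rw [hS] at h3 h5
    obtain ⟨I, hI⟩ : ∃ I, I = inn (mixp p gm b) S := ⟨_, rfl⟩
    obtain ⟨G, hG⟩ : ∃ G, G = (univ.filter (fun u => 16 * g < sz S u)).card := ⟨_, rfl⟩
    obtain ⟨a, ha⟩ : ∃ a, a = acc S p b := ⟨_, rfl⟩
    obtain ⟨c, hc⟩ : ∃ c, c = coin S b := ⟨_, rfl⟩
    obtain ⟨A, hA⟩ : ∃ A, A = (agE S p b).card := ⟨_, rfl⟩
    rw [← hI] at h3 hlt
    rw [← hG] at h3 h5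
    rw [← ha] at h3 h2'
    rw [← hA] at h3 h4
    rw [← hc] at h4 h1'
    have e1 : 16 * g * A ≤ 2 * (n * n) := by
      calc 16 * g * A ≤ 16 * g * (2 * y * c) := Nat.mul_le_mul_left _ h4
        _ ≤ 16 * g * (2 * y * (3 * n)) :=
            Nat.mul_le_mul_left _ (Nat.mul_le_mul_left _ h1'.le)
        _ = 2 * ((48 * g * y) * n) := by ring
        _ ≤ 2 * (n * n) := Nat.mul_le_mul_left _ (Nat.mul_le_mul_right _ hy)
    have e2 : 16 * g * (G * n) ≤ n * n := by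
      calc 16 * g * (G * n) = (G * (16 * g)) * n := by ring
        _ ≤ n * n := Nat.mul_le_mul_right _ h5
    have e3 : 16 * g * (16 * g * a) < n * n := by
      calc 16 * g * (16 * g * a) = 256 * g ^ 2 * a := by ring
        _ < n ^ 2 := h2'
        _ = n * n := by ring
    have e4 : 16 * g * I ≤ 16 * g * A + (16 * g * (G * n) + 16 * g * (16 * g * a)) := by
      calc 16 * g * I ≤ 16 * g * (A + (G * n + 16 * g * a)) := Nat.mul_le_mul_left _ h3
        _ = _ := by ring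
    have e5 : 4 * (n * n) < 16 * g * I := by
      have e6 : 4 * (4 * g * I) = 16 * g * I := by ring
      have e7 : n ^ 2 = n * n := by ring
      omega
    omega
  · have hP : (powersetCard n (univ : Finset (Fin n × Fin q))).card ≤ (4 * q) ^ n := by
      rw [card_powersetCard, card_univ, Fintype.card_prod, Fintype.card_fin, Fintype.card_fin]
      refine Nat.le_of_mul_le_mul_right (c := n ^ n) ?_ (Nat.pow_pos hn1)
      refine (choose_mul_pow_le _ _).trans (le_of_eq ?_)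
      rw [← mul_pow]
      congr 1
      ring
    obtain ⟨C, hC⟩ : ∃ C, C = Fintype.card (Pat n q) ^ t := ⟨_, rfl⟩
    rw [← hC]
    have k1 : ∀ S ∈ powersetCard n (univ : Finset (Fin n × Fin q)),
        (4 * q) ^ n * q ^ n * (X1 S ∪ X2 S).card ≤ C := by
      intro S hS
      have hSn := (mem_powersetCard.1 hS).2
      have e1 := card_X1 (t := t) hn1 (by omega) hq S hSn
      have e2 := card_X2 hg hn ht hq p S hSn
      have e1' : 2 * ((4 * q) ^ n * q ^ n) * (X1 S).card ≤ C := by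
        rw [hX1, hC]
        exact_mod_cast e1
      have e2' : 2 * ((4 * q) ^ n * q ^ n) * (X2 S).card ≤ C := by
        rw [hX2, hC]
        exact_mod_cast e2
      have e3 : (4 * q) ^ n * q ^ n * (X1 S ∪ X2 S).card ≤
          (4 * q) ^ n * q ^ n * ((X1 S).card + (X2 S).card) :=
        Nat.mul_le_mul_left _ (card_union_le _ _)
      obtain ⟨D, hD⟩ : ∃ D, D = (4 * q) ^ n * q ^ n := ⟨_, rfl⟩
      rw [← hD] at e1' e2' e3 ⊢
      rw [mul_add] at e3
      rw [mul_assoc] at e1' e2'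
      omega
    have hq1 : 0 < q := Nat.pos_of_ne_zero (NeZero.ne q)
    refine Nat.le_of_mul_le_mul_left (c := (4 * q) ^ n) ?_ (Nat.pow_pos (by omega))
    calc (4 * q) ^ n * (((powersetCard n (univ : Finset (Fin n × Fin q))).biUnion
          (fun S => X1 S ∪ X2 S)).card * q ^ n) ≤
        (4 * q) ^ n * ((∑ S ∈ powersetCard n (univ : Finset (Fin n × Fin q)),
          (X1 S ∪ X2 S).card) * q ^ n) :=
          Nat.mul_le_mul_left _ (Nat.mul_le_mul_right _ card_biUnion_le)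
      _ = ∑ S ∈ powersetCard n (univ : Finset (Fin n × Fin q)),
          (4 * q) ^ n * q ^ n * (X1 S ∪ X2 S).card := by
          rw [sum_mul, mul_sum]
          refine sum_congr rfl fun S _ => ?_
          ring
      _ ≤ ∑ _S ∈ powersetCard n (univ : Finset (Fin n × Fin q)), C := sum_le_sum k1
      _ ≤ (4 * q) ^ n * C := by
          rw [sum_const, smul_eq_mul]
          exact Nat.mul_le_mul_right _ hP

theorem card_E (n : ℕ) : 2 * Fintype.card (E n) ≤ n * n := by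
  have h1 : Fintype.card (E n ⊕ E n) ≤ Fintype.card (Fin n × Fin n) := by
    refine Fintype.card_le_of_injective
      (Sum.elim (fun e => (e.1.1, e.1.2)) (fun e => (e.1.2, e.1.1))) ?_
    rintro (e | e) (e' | e') h
    · simp only [Sum.elim_inl, Prod.mk.injEq] at h
      exact congrArg Sum.inl (Subtype.ext (Prod.ext h.1 h.2))
    · simp only [Sum.elim_inl, Sum.elim_inr, Prod.mk.injEq] at h
      have h1 := e.2
      have h2 := e'.2
      rw [h.1, h.2] at h1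
      exact absurd h1 h2.asymm
    · simp only [Sum.elim_inl, Sum.elim_inr, Prod.mk.injEq] at h
      have h1 := e.2
      have h2 := e'.2
      rw [h.1, h.2] at h1
      exact absurd h1 h2.asymm
    · simp only [Sum.elim_inr, Prod.mk.injEq] at h
      exact congrArg Sum.inr (Subtype.ext (Prod.ext h.2 h.1))
  rw [Fintype.card_sum, Fintype.card_prod, Fintype.card_fin] at h1
  omega

/-- The graph of a pattern has a component with `n` vertices. -/
theorem gm_yes (P : Pat n q) :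
    ∃ S : Finset (Fin n × Fin q), S.card = n ∧ cut (Gr (gm P)) S = 0 := by
  classical
  refine ⟨univ.image (fun u => (u, P.1 u)), ?_, ?_⟩
  · rw [card_image_of_injective _ (fun u u' h => (Prod.ext_iff.1 h).1), card_univ,
      Fintype.card_fin]
  · unfold cut
    rw [Nat.card_eq_zero]
    left
    refine ⟨fun p => ?_⟩
    obtain ⟨⟨v, w⟩, h1, h2, h3⟩ := p
    simp only at h1 h2 h3
    obtain ⟨u, -, rfl⟩ := mem_image.1 h1
    apply h2
    rcases h3 with ⟨h, h4⟩ | ⟨h, h4⟩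
    · refine mem_image.2 ⟨w.1, mem_univ _, ?_⟩
      have h5 := gm_self P ⟨(u, w.1), h⟩
      exact Prod.ext rfl (h5.symm.trans h4)
    · refine mem_image.2 ⟨w.1, mem_univ _, ?_⟩
      have h5 := gm_self P ⟨(w.1, u), h⟩
      refine Prod.ext rfl ?_
      exact (gm P ⟨(w.1, u), h⟩).injective (h5.trans h4.symm)

theorem main_sse : ∃ Γ : ℕ, ∀ g q n : ℕ, 1 ≤ g → Γ * g ^ 6 ≤ q → Γ * g ^ 2 ≤ n →
    ∀ (μ : ℕ) (Ω : Type) [Fintype Ω] [Nonempty Ω] (K W : Ω → Type) [∀ ρ, Field (K ρ)]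
      [∀ ρ, Fintype (W ρ)] (T : ∀ ρ, Net (K ρ) (E n) (Equiv.Perm (Fin q)) (W ρ))
      (a : ∀ ρ, W ρ → K ρ),
      (∀ ρ e, (T ρ).reads e ≤ 1) →
      (∀ ρ x, (∀ S : Finset (Fin n × Fin q), S.card = n →
        (g - 1) * ((n - 1) * S.card) ≤ g * cut (Gr x) S) → (T ρ).value (a ρ) x = 0) →
      (∀ x, (∃ S : Finset (Fin n × Fin q), S.card = n ∧ cut (Gr x) S = 0) →
        Nat.card Ω ≤ 2 ^ μ * Nat.card {ρ // (T ρ).value (a ρ) x ≠ 0}) →
      ∃ ρ, q ^ n ≤ (2 ^ μ * Fintype.card (W ρ)) ^ (Γ * g ^ 2) := by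
  classical
  refine ⟨2 ^ 50, fun g q n hg hqg hng μ Ω _ _ K W _ _ T a h1 hno hyes => ?_⟩
  have hg2 : 1 ≤ g ^ 2 := Nat.one_le_pow _ _ hg
  obtain ⟨t, ht⟩ : ∃ t, t = 9216 * g ^ 2 + 1 := ⟨_, rfl⟩
  have htg : t ≤ 2 ^ 14 * g ^ 2 := by omega
  have hq : 64 * t ^ 3 ≤ q := by
    calc 64 * t ^ 3 ≤ 64 * (2 ^ 14 * g ^ 2) ^ 3 :=
          Nat.mul_le_mul_left _ (Nat.pow_le_pow_left htg 3)
      _ = 2 ^ 48 * g ^ 6 := by ring
      _ ≤ 2 ^ 50 * g ^ 6 := Nat.mul_le_mul_right _ (by norm_num)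
      _ ≤ q := hqg
  have ht3 : 0 < t ^ 3 := Nat.pow_pos (by omega)
  have hq0 : 0 < q := by omega
  have : NeZero q := ⟨by omega⟩
  have hn2048 : 2048 * g ^ 2 ≤ n := by omega
  have hgg : g ≤ g ^ 2 := Nat.le_self_pow (by norm_num) g
  obtain ⟨y, hy⟩ : ∃ y, y = n / (48 * g) := ⟨_, rfl⟩
  have hy1 : 1 ≤ y := by
    rw [hy]
    exact Nat.div_pos (by omega) (by omega)
  have hyn : 48 * g * y ≤ n := by
    rw [hy]
    exact Nat.mul_div_le n _
  have hny : n < 48 * g * (y + 1) := by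
    rw [hy]
    exact Nat.lt_mul_div_succ n (by omega)
  have hE : 2 * Fintype.card (E n) + y ^ 2 ≤ y ^ 2 * t := by
    have e0 := card_E n
    have e1 : n ≤ 96 * g * y := by nlinarith
    have e2 : n * n ≤ (96 * g * y) * (96 * g * y) := Nat.mul_le_mul e1 e1
    calc 2 * Fintype.card (E n) + y ^ 2 ≤ (96 * g * y) * (96 * g * y) + y ^ 2 := by omega
      _ = _ := by rw [ht]; ring
  have : Nonempty (Fin q) := ⟨0⟩
  obtain ⟨ρ, hρ, hw1⟩ := rand_density μ Ω K W T a h1 (θ := y ^ 2) (t := t)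
    (Nat.one_le_pow _ _ hy1) (by omega) hE (U := Pat n q) gm
    (univ : Finset (Pat n q)) (η := 0) (by rw [card_univ, pow_zero, one_mul])
    (fun P _ => hyes _ (gm_yes P)) (N := q ^ n) (fun ρ p hp => by
        obtain ⟨B, hB1, hB2⟩ := few_bad (q := q) hg hn2048 hyn ht hq p hp
        refine ⟨B, fun b hb => ?_, hB2⟩
        by_contra hcon
        refine hb (hno ρ _ fun S hS => ?_)
        have e1 : ¬ n ^ 2 < 4 * g * inn (mixp p gm b) S := fun h => hcon (hB1 b ⟨S, hS, h⟩)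
        rw [not_lt] at e1
        have e2 := cut_ge (mixp p gm b) S
        rw [hS] at e2 ⊢
        obtain ⟨c, hc⟩ : ∃ c, c = cut (Gr (mixp p gm b)) S := ⟨_, rfl⟩
        obtain ⟨I, hI⟩ : ∃ I, I = inn (mixp p gm b) S := ⟨_, rfl⟩
        rw [← hc, ← hI] at e2
        rw [← hc]
        rw [← hI] at e1
        obtain ⟨n', rfl⟩ : ∃ n', n = n' + 2 := ⟨n - 2, by omega⟩
        obtain ⟨g', rfl⟩ : ∃ g', g = g' + 1 := ⟨g - 1, by omega⟩
        simp only [Nat.add_sub_cancel, Nat.add_succ_sub_one] at e2 ⊢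
        have e3 : (g' + 1) * ((n' + 2) * (n' + 1)) ≤ (g' + 1) * c + (g' + 1) * (2 * I) := by
          rw [← mul_add]
          exact Nat.mul_le_mul_left _ e2
        have e4 : 4 * (g' + 1) * I = 2 * ((g' + 1) * (2 * I)) := by ring
        have e5 : (n' + 2) ^ 2 ≤ 2 * ((n' + 1) * (n' + 2)) := by nlinarith
        have e6 : (g' + 1) * ((n' + 2) * (n' + 1)) = g' * ((n' + 1) * (n' + 2)) +
          (n' + 1) * (n' + 2) := by ring
        omega)
  refine ⟨ρ, ?_⟩
  obtain ⟨w, hw⟩ : ∃ w, w = Fintype.card (W ρ) := ⟨_, rfl⟩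
  rw [← hw] at hρ hw1 ⊢
  obtain ⟨Z, hZ⟩ : ∃ Z, Z = 2 ^ μ * w := ⟨_, rfl⟩
  have hZ1 : 1 ≤ Z := by
    rw [hZ]
    exact Nat.mul_pos (Nat.pow_pos (by norm_num)) hw1
  rw [← hZ]
  have e1 : 2 ^ (μ + 0 + 1) * (t * w ^ 3) ≤ (2 * t) * Z ^ 3 := by
    have e2 : Z ^ 3 = 2 ^ (3 * μ) * w ^ 3 := by rw [hZ, mul_pow, ← pow_mul, mul_comm μ 3]
    rw [e2]
    calc 2 ^ (μ + 0 + 1) * (t * w ^ 3) = (2 * t) * (2 ^ μ * w ^ 3) := by
          rw [add_zero, pow_succ]; ring
      _ ≤ (2 * t) * (2 ^ (3 * μ) * w ^ 3) :=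
          Nat.mul_le_mul_left _ (Nat.mul_le_mul_right _
            (Nat.pow_le_pow_right (by norm_num) (by omega)))
  have e2 : q ^ n ≤ (2 * t) ^ (t + 1) * (Z ^ 3) ^ (t + 1) := by
    rw [← mul_pow]
    exact hρ.trans (Nat.pow_le_pow_left e1 (t + 1))
  have h2tq : 2 * t ≤ q := by
    have : t ≤ t ^ 3 := Nat.le_self_pow (by norm_num) t
    omega
  have e3 : (q ^ n) ^ 2 ≤ q ^ n * (Z ^ 3) ^ (2 * (t + 1)) := by
    have e4 : ((2 * t) ^ (t + 1)) ^ 2 ≤ q ^ n := by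
      rw [← pow_mul]
      refine (Nat.pow_le_pow_left h2tq _).trans (Nat.pow_le_pow_right hq0 ?_)
      omega
    calc (q ^ n) ^ 2 ≤ ((2 * t) ^ (t + 1) * (Z ^ 3) ^ (t + 1)) ^ 2 := Nat.pow_le_pow_left e2 2
      _ = ((2 * t) ^ (t + 1)) ^ 2 * (Z ^ 3) ^ (2 * (t + 1)) := by ring
      _ ≤ _ := Nat.mul_le_mul_right _ e4
  have e4 : q ^ n ≤ (Z ^ 3) ^ (2 * (t + 1)) := by
    refine Nat.le_of_mul_le_mul_left (c := q ^ n) ?_ (Nat.pow_pos hq0)
    rw [← sq]
    exact e3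
  rw [← pow_mul] at e4
  refine e4.trans (Nat.pow_le_pow_right hZ1 ?_)
  omega

/-! ### the upper bound -/

/-- The sets of `n` vertices without boundary. -/
theorem exists_iff (x : E n → Equiv.Perm (Fin q)) (hn : 1 ≤ n) :
    (∃ S : Finset (Fin n × Fin q), S.card = n ∧ cut (Gr x) S = 0) ↔
      ∃ β : Fin n → Fin q, ∀ e, x e (β e.1.1) = β e.1.2 := by
  classical
  constructor
  · rintro ⟨S, hS, h0⟩
    have hcut : ∀ v w, v ∈ S → (Gr x).Adj v w → w ∈ S := by
      intro v w hv hvw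
      by_contra hw
      unfold cut at h0
      rw [Nat.card_eq_zero] at h0
      rcases h0 with h0 | h0
      · exact h0.false ⟨(v, w), hv, hw, hvw⟩
      · exact absurd h0 (not_infinite_iff_finite.2 inferInstance)
    have hf : ∀ (e : E n) (a : Fin q), (e.1.1, a) ∈ S → (e.1.2, x e a) ∈ S := by
      intro e a ha
      exact hcut _ _ ha (Or.inl ⟨e.2, rfl⟩)
    have hb : ∀ (e : E n) (a : Fin q), (e.1.2, x e a) ∈ S → (e.1.1, a) ∈ S := by
      intro e a ha
      exact hcut _ _ ha (Or.inr ⟨e.2, rfl⟩)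
    have hsz : ∀ e : E n, sz S e.1.1 = sz S e.1.2 := by
      intro e
      unfold sz
      refine card_bij (fun a _ => x e a) (fun a ha => ?_) (fun a _ a' _ h => (x e).injective h)
        (fun a ha => ?_)
      · exact mem_filter.2 ⟨mem_univ _, hf e a (mem_filter.1 ha).2⟩
      · refine ⟨(x e).symm a, mem_filter.2 ⟨mem_univ _, hb e _ ?_⟩, Equiv.apply_symm_apply _ _⟩
        rw [Equiv.apply_symm_apply]
        exact (mem_filter.1 ha).2
    have hall : ∀ u v : Fin n, sz S u = sz S v := by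
      intro u v
      rcases lt_trichotomy u v with h | h | h
      · exact hsz ⟨(u, v), h⟩
      · rw [h]
      · exact (hsz ⟨(v, u), h⟩).symm
    have h1 : ∀ u : Fin n, sz S u = 1 := by
      intro u
      have h2 := sum_sz S
      rw [sum_congr rfl fun v _ => hall v u, sum_const, card_univ, Fintype.card_fin, smul_eq_mul,
        hS] at h2
      exact Nat.eq_of_mul_eq_mul_left hn (by rw [h2, mul_one])
    have h2 : ∀ u : Fin n, ∃ a, univ.filter (fun a => (u, a) ∈ S) = {a} := fun u =>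
      card_eq_one.1 (h1 u)
    choose β hβ using h2
    have h3 : ∀ u a, (u, a) ∈ S ↔ a = β u := by
      intro u a
      have h4 : a ∈ univ.filter (fun a => (u, a) ∈ S) ↔ a ∈ ({β u} : Finset (Fin q)) := by
        rw [hβ]
      rw [mem_filter, mem_singleton] at h4
      rw [← h4]
      exact ⟨fun h => ⟨mem_univ _, h⟩, fun h => h.2⟩
    exact ⟨β, fun e => (h3 _ _).1 (hf e _ ((h3 _ _).2 rfl))⟩
  · rintro ⟨β, hβ⟩
    refine ⟨univ.image (fun u => (u, β u)), ?_, ?_⟩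
    · rw [card_image_of_injective _ (fun u u' h => (Prod.ext_iff.1 h).1), card_univ,
        Fintype.card_fin]
    · unfold cut
      rw [Nat.card_eq_zero]
      left
      refine ⟨fun p => ?_⟩
      obtain ⟨⟨v, w⟩, h1, h2, h3⟩ := p
      simp only at h1 h2 h3
      obtain ⟨u, -, rfl⟩ := mem_image.1 h1
      apply h2
      rcases h3 with ⟨h, h4⟩ | ⟨h, h4⟩
      · refine mem_image.2 ⟨w.1, mem_univ _, ?_⟩
        exact Prod.ext rfl ((hβ ⟨(u, w.1), h⟩).symm.trans h4)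
      · refine mem_image.2 ⟨w.1, mem_univ _, ?_⟩
        refine Prod.ext rfl ?_
        exact (x ⟨(w.1, u), h⟩).injective ((hβ ⟨(w.1, u), h⟩).trans h4.symm)

/-- A network which recognizes the graphs with a set of `n` vertices without boundary. -/
theorem upper_sse (q : ℕ) {n : ℕ} (hn : 2 ≤ n) :
    ∃ (T : Net ℚ (E n) (Equiv.Perm (Fin q)) (Fin n → Fin q)) (a : (Fin n → Fin q) → ℚ),
      T.Linear ∧ (∀ e, T.reads e = 1) ∧ T.size = 2 * Fintype.card (E n) - 1 ∧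
        ∀ x, T.value a x ≠ 0 ↔
          ∃ S : Finset (Fin n × Fin q), S.card = n ∧ cut (Gr x) S = 0 := by
  classical
  have : Nonempty (E n) := ⟨⟨(⟨0, by omega⟩, ⟨1, by omega⟩), by
    rw [Fin.lt_def]
    norm_num⟩⟩
  obtain ⟨T, h1, h2, h3, h4⟩ := exists_product (K := ℚ)
    (fun (e : E n) (ω : Equiv.Perm (Fin q)) (β : Fin n → Fin q) =>
      if ω (β e.1.1) = β e.1.2 then (1 : ℚ) else 0)
  refine ⟨T, fun _ => 1, h1, h2, h3, fun x => ?_⟩
  rw [exists_iff x (by omega)]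
  have h5 : ∀ β : Fin n → Fin q, T.eval x β =
      if ∀ e, x e (β e.1.1) = β e.1.2 then 1 else 0 := by
    intro β
    rw [h4]
    by_cases hβ : ∀ e, x e (β e.1.1) = β e.1.2
    · rw [if_pos hβ]
      exact prod_eq_one fun e _ => if_pos (hβ e)
    · rw [if_neg hβ]
      push Not at hβ
      obtain ⟨e, he⟩ := hβ
      exact prod_eq_zero (mem_univ e) (if_neg he)
  have h6 : T.value (fun _ => 1) x =
      ((univ.filter (fun β : Fin n → Fin q => ∀ e, x e (β e.1.1) = β e.1.2)).card : ℚ) := by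
    unfold Net.value
    rw [card_filter]
    push_cast
    refine sum_congr rfl fun β _ => ?_
    rw [h5, one_mul]
  rw [h6, Nat.cast_ne_zero, card_ne_zero]
  constructor
  · rintro ⟨β, hβ⟩
    exact ⟨β, (mem_filter.1 hβ).2⟩
  · rintro ⟨β, hβ⟩
    exact ⟨β, mem_filter.2 ⟨mem_univ _, hβ⟩⟩

end Pool.Agent.V11163.SS
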