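import Pool.Agent.V11163.SS.Graph

/-!
# Mixtures of graphs with a small nonexpanding set have no small nonexpanding set
-/

set_option autoImplicit false

open Finset

namespace Pool.Agent.V11163.SS

open Pool.Agent.TH700.PA (Net mixp rand_density exists_product choose_mul_pow_le)

variable {n q t : ℕ}

/-- The patterns: a vertex in every block and arbitrary matchings. -/
abbrev Pat (n q : ℕ) : Type := (Fin n → Fin q) × (E n → Equiv.Perm (Fin q))

/-- The graph of a pattern: the matchings corrected so that they match the given vertices. -/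
def gm (P : Pat n q) : E n → Equiv.Perm (Fin q) :=
  fun e => fix (P.2 e) (P.1 e.1.1) (P.1 e.1.2)

theorem gm_self (P : Pat n q) (e : E n) : gm P e (P.1 e.1.1) = P.1 e.1.2 := fix_self _ _ _

/-- The size of the part of `S` in a block. -/
def sz (S : Finset (Fin n × Fin q)) (u : Fin n) : ℕ := (univ.filter (fun a => (u, a) ∈ S)).card

theorem sum_sz (S : Finset (Fin n × Fin q)) : ∑ u, sz S u = S.card := by
  classical
  rw [card_eq_sum_card_fiberwise (f := fun p : Fin n × Fin q => p.1) (t := univ)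
    (fun _ _ => mem_univ _)]
  refine sum_congr rfl fun u _ => ?_
  unfold sz
  refine card_bij (fun a _ => (u, a)) (fun a ha => ?_) (fun a _ a' _ h => (Prod.ext_iff.1 h).2)
    (fun p hp => ?_)
  · exact mem_filter.2 ⟨(mem_filter.1 ha).2, rfl⟩
  · obtain ⟨h1, rfl⟩ := mem_filter.1 hp
    exact ⟨p.2, mem_filter.2 ⟨mem_univ _, h1⟩, rfl⟩

/-- The number of the pairs (part, block) for which the vertex of the pattern is in `S`. -/
def coin (S : Finset (Fin n × Fin q)) (b : Fin t → Pat n q) : ℕ :=
  (univ.filter (fun s : Fin t × Fin n => (s.2, (b s.1).1 s.2) ∈ S)).card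

/-- The matching of the pair `e` has an accidental edge inside `S`. -/
def Ac (S : Finset (Fin n × Fin q)) (P : Pat n q) (e : E n) : Prop :=
  ∃ a, a ≠ P.1 e.1.1 ∧ (e.1.1, a) ∈ S ∧ (e.1.2, gm P e a) ∈ S

open Classical in
/-- The number of the pairs of blocks with an accidental edge. -/
noncomputable def acc (S : Finset (Fin n × Fin q)) (p : E n → Fin t) (b : Fin t → Pat n q) : ℕ :=
  (univ.filter (fun e => Ac S (b (p e)) e)).card

/-- The pairs which are joined inside `S` by the edge of the pattern. -/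
def agE (S : Finset (Fin n × Fin q)) (p : E n → Fin t) (b : Fin t → Pat n q) : Finset (E n) :=
  univ.filter (fun e => (e.1.1, (b (p e)).1 e.1.1) ∈ S ∧ (e.1.2, (b (p e)).1 e.1.2) ∈ S)

theorem card_ag {y : ℕ} (S : Finset (Fin n × Fin q)) (p : E n → Fin t) (b : Fin t → Pat n q)
    (hp : ∀ j, (univ.filter (fun e => p e = j)).card ≤ 2 * y ^ 2) :
    (agE S p b).card ≤ 2 * y * coin S b := by
  classical
  obtain ⟨Co, hCo⟩ : ∃ Co : Finset (Fin t × Fin n), Co =
    univ.filter (fun s : Fin t × Fin n => (s.2, (b s.1).1 s.2) ∈ S) := ⟨_, rfl⟩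
  have hc : coin S b = Co.card := by rw [hCo]; rfl
  have h1 : (agE S p b).card = ∑ j, ((agE S p b).filter (fun e => p e = j)).card :=
    card_eq_sum_card_fiberwise (fun _ _ => mem_univ _)
  have h2 : Co.card = ∑ j, (Co.filter (fun s => s.1 = j)).card :=
    card_eq_sum_card_fiberwise (fun _ _ => mem_univ _)
  rw [hc, h1, h2, mul_sum]
  refine sum_le_sum fun j _ => ?_
  have h3 : ((agE S p b).filter (fun e => p e = j)).card ≤ 2 * y ^ 2 := by
    refine le_trans (card_le_card fun e he => ?_) (hp j)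
    exact mem_filter.2 ⟨mem_univ _, (mem_filter.1 he).2⟩
  have h4 : ((agE S p b).filter (fun e => p e = j)).card ≤
      (Co.filter (fun s => s.1 = j)).card * (Co.filter (fun s => s.1 = j)).card := by
    rw [← card_product]
    refine card_le_card_of_injOn (fun e => ((j, e.1.1), (j, e.1.2)))
      (fun e he => ?_) (fun e _ e' _ hee => ?_)
    · rw [mem_coe, mem_filter] at he
      obtain ⟨h5, rfl⟩ := he
      unfold agE at h5
      obtain ⟨-, g1, g2⟩ := mem_filter.1 h5
      rw [mem_coe, mem_product, hCo]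
      exact ⟨mem_filter.2 ⟨mem_filter.2 ⟨mem_univ _, g1⟩, rfl⟩,
        mem_filter.2 ⟨mem_filter.2 ⟨mem_univ _, g2⟩, rfl⟩⟩
    · have e1 := congrArg (fun r => r.1.2) hee
      have e2 := congrArg (fun r => r.2.2) hee
      exact Subtype.ext (Prod.ext e1 e2)
  obtain ⟨k, hk⟩ : ∃ k, k = (Co.filter (fun s => s.1 = j)).card := ⟨_, rfl⟩
  rw [← hk] at h4 ⊢
  rcases le_total k (2 * y) with h5 | h5
  · exact h4.trans (Nat.mul_le_mul_right _ h5)
  · refine h3.trans ?_
    nlinarith

/-- The number of edges inside `S`. -/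
theorem inn_le (S : Finset (Fin n × Fin q)) (p : E n → Fin t) (b : Fin t → Pat n q) (L : ℕ) :
    inn (mixp p gm b) S ≤ (agE S p b).card +
      ((univ.filter (fun u => L < sz S u)).card * S.card + L * acc S p b) := by
  classical
  obtain ⟨Bg, hBg⟩ : ∃ Bg : Finset (Fin n), Bg = univ.filter (fun u => L < sz S u) := ⟨_, rfl⟩
  rw [← hBg]
  obtain ⟨I, hI⟩ : ∃ I : Finset (E n × Fin q), I = univ.filter (fun r : E n × Fin q =>
    (r.1.1.1, r.2) ∈ S ∧ (r.1.1.2, mixp p gm b r.1 r.2) ∈ S) := ⟨_, rfl⟩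
  have hinn : inn (mixp p gm b) S = I.card := by rw [hI]; rfl
  rw [hinn]
  have h1 : I ⊆ (I.filter (fun r => r.2 = (b (p r.1)).1 r.1.1.1)) ∪
      ((I.filter (fun r => r.1.1.1 ∈ Bg)) ∪
        (I.filter (fun r => r.2 ≠ (b (p r.1)).1 r.1.1.1 ∧ r.1.1.1 ∉ Bg))) := by
    intro r hr
    rw [mem_union, mem_union, mem_filter, mem_filter, mem_filter]
    tauto
  refine (card_le_card h1).trans ((card_union_le _ _).trans (Nat.add_le_add ?_
    ((card_union_le _ _).trans (Nat.add_le_add ?_ ?_))))
  · refine card_le_card_of_injOn (fun r => r.1) (fun r hr => ?_) (fun r hr r' hr' h => ?_)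
    · obtain ⟨h2, h3⟩ := mem_filter.1 hr
      rw [hI] at h2
      obtain ⟨-, h4, h5⟩ := mem_filter.1 h2
      unfold agE
      refine mem_coe.2 (mem_filter.2 ⟨mem_univ _, ?_, ?_⟩)
      · rw [← h3]
        exact h4
      · have h6 : mixp p gm b r.1 r.2 = (b (p r.1)).1 r.1.1.2 := by
          rw [h3]
          exact gm_self (b (p r.1)) r.1
        rw [← h6]
        exact h5
    · have h2 := (mem_filter.1 hr).2
      have h3 := (mem_filter.1 hr').2
      simp only at h
      refine Prod.ext h ?_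
      rw [h2, h3, h]
  · rw [← card_product]
    refine card_le_card_of_injOn (fun r => (r.1.1.1, (r.1.1.2, mixp p gm b r.1 r.2)))
      (fun r hr => ?_) (fun r hr r' hr' h => ?_)
    · obtain ⟨h2, h3⟩ := mem_filter.1 hr
      rw [hI] at h2
      exact mem_coe.2 (mem_product.2 ⟨h3, (mem_filter.1 h2).2.2⟩)
    · have e1 := congrArg (fun r => r.1) h
      have e2 := congrArg (fun r => r.2.1) h
      have e3 := congrArg (fun r => r.2.2) h
      simp only at e1 e2 e3
      have e4 : r.1 = r'.1 := Subtype.ext (Prod.ext e1 e2)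
      refine Prod.ext e4 ?_
      rw [e4] at e3
      exact (mixp p gm b r'.1).injective e3
  · have h2 : (I.filter (fun r => r.2 ≠ (b (p r.1)).1 r.1.1.1 ∧ r.1.1.1 ∉ Bg)).card =
        ∑ e ∈ univ.filter (fun e => Ac S (b (p e)) e),
          ((I.filter (fun r => r.2 ≠ (b (p r.1)).1 r.1.1.1 ∧ r.1.1.1 ∉ Bg)).filter
            (fun r => r.1 = e)).card := by
      refine card_eq_sum_card_fiberwise fun r hr => ?_
      obtain ⟨h3, h4, -⟩ := mem_filter.1 hr
      rw [hI] at h3
      obtain ⟨-, h5, h6⟩ := mem_filter.1 h3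
      exact mem_coe.2 (mem_filter.2 ⟨mem_univ _, r.2, h4, h5, h6⟩)
    rw [h2]
    unfold acc
    rw [mul_comm, ← smul_eq_mul, ← sum_const]
    refine sum_le_sum fun e he => ?_
    by_cases hB : e.1.1 ∈ Bg
    · have h3 : (I.filter (fun r => r.2 ≠ (b (p r.1)).1 r.1.1.1 ∧ r.1.1.1 ∉ Bg)).filter
          (fun r => r.1 = e) = ∅ := by
        rw [filter_eq_empty_iff]
        intro r hr h4
        exact (mem_filter.1 hr).2.2 (by rw [h4]; exact hB)
      rw [h3, card_empty]
      exact Nat.zero_le _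
    · have h3 : ((I.filter (fun r => r.2 ≠ (b (p r.1)).1 r.1.1.1 ∧ r.1.1.1 ∉ Bg)).filter
          (fun r => r.1 = e)).card ≤ sz S e.1.1 := by
        unfold sz
        refine card_le_card_of_injOn (fun r => r.2) (fun r hr => ?_) (fun r hr r' hr' h => ?_)
        · obtain ⟨h4, h5⟩ := mem_filter.1 hr
          have h6 := (mem_filter.1 h4).1
          rw [hI] at h6
          have h7 := (mem_filter.1 h6).2.1
          rw [h5] at h7
          exact mem_coe.2 (mem_filter.2 ⟨mem_univ _, h7⟩)
        · exact Prod.ext ((mem_filter.1 hr).2.trans (mem_filter.1 hr').2.symm) h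
      refine h3.trans ?_
      rw [hBg, mem_filter, not_and, not_lt] at hB
      exact hB (mem_univ _)

/-! ### the moments -/

section Moments

variable [NeZero q]

theorem card_pat_pos : (0 : ℝ) < Fintype.card (Pat n q) := by
  have : Nonempty (Fin q) := ⟨0⟩
  exact_mod_cast Fintype.card_pos

open Classical in
/-- The moment of the coincidences. -/
theorem moment_coin (S : Finset (Fin n × Fin q)) {z : ℝ} (hz : 1 ≤ z) :
    ∑ b : Fin t → Pat n q, z ^ coin S b ≤
      (Fintype.card (Pat n q) : ℝ) ^ t * Real.exp (z * (t * S.card) / q) := by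
  have hq : (0 : ℝ) < q := by exact_mod_cast Nat.pos_of_ne_zero (NeZero.ne q)
  have h1 : ∀ b : Fin t → Pat n q, z ^ coin S b =
      ∏ j, ∏ u : Fin n, (if (u, (b j).1 u) ∈ S then z else 1) := by
    intro b
    have h2 : z ^ coin S b = ∏ s : Fin t × Fin n, (if (s.2, (b s.1).1 s.2) ∈ S then z else 1) := by
      rw [prod_ite, prod_const_one, mul_one, prod_const]
      rfl
    rw [h2, Fintype.prod_prod_type]
  rw [sum_congr rfl fun b _ => h1 b,
    ← Fintype.prod_sum (fun (_ : Fin t) (P : Pat n q) =>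
      ∏ u : Fin n, (if (u, P.1 u) ∈ S then z else 1))]
  have h2 : ∑ P : Pat n q, ∏ u : Fin n, (if (u, P.1 u) ∈ S then z else 1) ≤
      Fintype.card (Pat n q) * Real.exp (z * S.card / q) := by
    rw [Fintype.sum_prod_type]
    have h3 : ∑ β : Fin n → Fin q, ∑ _π : E n → Equiv.Perm (Fin q),
        ∏ u : Fin n, (if (u, β u) ∈ S then z else 1) =
        Fintype.card (E n → Equiv.Perm (Fin q)) *
          ∏ u : Fin n, ∑ a : Fin q, (if (u, a) ∈ S then z else 1) := by
      rw [Fintype.prod_sum (fun (u : Fin n) (a : Fin q) => if (u, a) ∈ S then z else 1), mul_sum]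
      refine sum_congr rfl fun β _ => ?_
      rw [sum_const, card_univ, nsmul_eq_mul]
    rw [h3]
    have h4 : ∀ u : Fin n, ∑ a : Fin q, (if (u, a) ∈ S then z else 1) ≤
        q * Real.exp (z * sz S u / q) := by
      intro u
      have h5 : ∑ a : Fin q, (if (u, a) ∈ S then z else (1 : ℝ)) = q + (z - 1) * sz S u := by
        have h6 : ∀ a : Fin q, (if (u, a) ∈ S then z else (1 : ℝ)) =
            1 + (z - 1) * (if (u, a) ∈ S then 1 else 0) := by
          intro a
          split_ifs <;> ring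
        rw [sum_congr rfl fun a _ => h6 a, sum_add_distrib, ← mul_sum, sum_const, card_univ,
          Fintype.card_fin, nsmul_eq_mul, mul_one, sum_boole]
        rfl
      rw [h5]
      have h7 := Real.add_one_le_exp (z * sz S u / q)
      have h8 : (0 : ℝ) ≤ sz S u := Nat.cast_nonneg _
      calc (q : ℝ) + (z - 1) * sz S u ≤ q + z * sz S u := by nlinarith
        _ = q * (z * sz S u / q + 1) := by field_simp; ring
        _ ≤ _ := mul_le_mul_of_nonneg_left h7 hq.le
    have h9 : ∏ u : Fin n, ∑ a : Fin q, (if (u, a) ∈ S then z else 1) ≤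
        (q : ℝ) ^ n * Real.exp (z * S.card / q) := by
      refine (prod_le_prod (fun u _ => sum_nonneg fun a _ => ?_) fun u _ => h4 u).trans
        (le_of_eq ?_)
      · split_ifs <;> linarith
      · rw [prod_mul_distrib, prod_const, card_univ, Fintype.card_fin, ← Real.exp_sum]
        congr 2
        rw [← sum_div, ← mul_sum, ← sum_sz S]
        push_cast
        rfl
    calc _ ≤ (Fintype.card (E n → Equiv.Perm (Fin q)) : ℝ) *
          ((q : ℝ) ^ n * Real.exp (z * S.card / q)) :=
          mul_le_mul_of_nonneg_left h9 (Nat.cast_nonneg _)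
      _ = _ := by
          rw [Fintype.card_prod (Fin n → Fin q), Fintype.card_fun (α := Fin n) (β := Fin q),
            Fintype.card_fin, Fintype.card_fin]
          push_cast
          ring
  rw [prod_const, card_univ, Fintype.card_fin]
  refine (pow_le_pow_left₀ ?_ h2 t).trans (le_of_eq ?_)
  · refine sum_nonneg fun P _ => prod_nonneg fun u _ => ?_
    split_ifs <;> linarith
  · rw [mul_pow, ← Real.exp_nat_mul]
    congr 2
    ring

open Classical in
/-- The moment of the accidental edges. -/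
theorem moment_acc (hq2 : 2 ≤ q) (S : Finset (Fin n × Fin q)) (p : E n → Fin t) {z : ℝ}
    (hz : 1 ≤ z) :
    ∑ b : Fin t → Pat n q, z ^ acc S p b ≤
      (Fintype.card (Pat n q) : ℝ) ^ t * Real.exp (z * (S.card : ℝ) ^ 2 / (q - 1)) := by
  have hq1 : (0 : ℝ) < (q : ℝ) - 1 := by
    have : (2 : ℝ) ≤ q := by exact_mod_cast hq2
    linarith
  obtain ⟨F, hF⟩ : ∃ F : Fin t → E n → (Fin n → Fin q) → Equiv.Perm (Fin q) → ℝ,
      F = fun j e β π => if p e = j then (if ∃ a, a ≠ β e.1.1 ∧ (e.1.1, a) ∈ S ∧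
        (e.1.2, fix π (β e.1.1) (β e.1.2) a) ∈ S then z else 1) else 1 := ⟨_, rfl⟩
  obtain ⟨c, hc⟩ : ∃ c : E n → ℝ, c = fun e => z * ((sz S e.1.1 : ℝ) * sz S e.1.2) / (q - 1) :=
    ⟨_, rfl⟩
  have h1 : ∀ b : Fin t → Pat n q, z ^ acc S p b =
      ∏ j, ∏ e : E n, F j e (b j).1 ((b j).2 e) := by
    intro b
    rw [prod_comm]
    have h2 : ∀ e : E n, ∏ j, F j e (b j).1 ((b j).2 e) =
        if Ac S (b (p e)) e then z else 1 := by
      intro e
      rw [hF]
      simp only
      rw [prod_ite_eq, if_pos (mem_univ _)]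
      by_cases h9 : Ac S (b (p e)) e
      · rw [if_pos h9]
        exact if_pos h9
      · rw [if_neg h9]
        exact if_neg h9
    rw [prod_congr rfl fun e _ => h2 e, prod_ite, prod_const_one, mul_one, prod_const]
    rfl
  rw [sum_congr rfl fun b _ => h1 b,
    ← Fintype.prod_sum (fun (j : Fin t) (P : Pat n q) => ∏ e : E n, F j e P.1 (P.2 e))]
  have hF0 : ∀ j e β π, 0 ≤ F j e β π := by
    intro j e β π
    rw [hF]
    simp only
    split_ifs <;> linarith
  have h3 : ∀ j e β, ∑ π, F j e β π ≤ Fintype.card (Equiv.Perm (Fin q)) *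
      Real.exp (if p e = j then c e else 0) := by
    intro j e β
    by_cases hj : p e = j
    · rw [if_pos hj, hF]
      simp only [if_pos hj]
      obtain ⟨B, hB⟩ : ∃ B : Finset (Equiv.Perm (Fin q)), B = univ.filter (fun π =>
        ∃ a, a ≠ β e.1.1 ∧ (e.1.1, a) ∈ S ∧
          (e.1.2, fix π (β e.1.1) (β e.1.2) a) ∈ S) := ⟨_, rfl⟩
      have h5 : ∑ π : Equiv.Perm (Fin q), (if ∃ a, a ≠ β e.1.1 ∧ (e.1.1, a) ∈ S ∧
          (e.1.2, fix π (β e.1.1) (β e.1.2) a) ∈ S then z else (1 : ℝ)) =
          Fintype.card (Equiv.Perm (Fin q)) + (z - 1) * B.card := by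
        have h6 : ∀ π : Equiv.Perm (Fin q), (if ∃ a, a ≠ β e.1.1 ∧ (e.1.1, a) ∈ S ∧
          (e.1.2, fix π (β e.1.1) (β e.1.2) a) ∈ S then z else (1 : ℝ)) =
            1 + (z - 1) * (if ∃ a, a ≠ β e.1.1 ∧ (e.1.1, a) ∈ S ∧
              (e.1.2, fix π (β e.1.1) (β e.1.2) a) ∈ S then 1 else 0) := by
          intro π
          split_ifs <;> ring
        rw [sum_congr rfl fun π _ => h6 π, sum_add_distrib, ← mul_sum, sum_const, card_univ,
          nsmul_eq_mul, mul_one, sum_boole, hB]
      rw [h5]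
      have h7 : (q - 1) * B.card ≤ sz S e.1.1 * sz S e.1.2 *
          Fintype.card (Equiv.Perm (Fin q)) := by
        have h8 : B ⊆ ((univ.filter (fun a => (e.1.1, a) ∈ S)) ×ˢ
            (univ.filter (fun a => (e.1.2, a) ∈ S))).biUnion (fun r =>
              univ.filter (fun π => r.1 ≠ β e.1.1 ∧ fix π (β e.1.1) (β e.1.2) r.1 = r.2)) := by
          intro π hπ
          rw [hB] at hπ
          obtain ⟨-, a, g1, g2, g3⟩ := mem_filter.1 hπ
          exact mem_biUnion.2 ⟨(a, fix π (β e.1.1) (β e.1.2) a), mem_product.2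
            ⟨mem_filter.2 ⟨mem_univ _, g2⟩, mem_filter.2 ⟨mem_univ _, g3⟩⟩,
            mem_filter.2 ⟨mem_univ _, g1, rfl⟩⟩
        refine (Nat.mul_le_mul_left _ ((card_le_card h8).trans card_biUnion_le)).trans ?_
        rw [mul_sum]
        have h9 : ∀ r : Fin q × Fin q, (q - 1) * (univ.filter (fun π : Equiv.Perm (Fin q) =>
            r.1 ≠ β e.1.1 ∧ fix π (β e.1.1) (β e.1.2) r.1 = r.2)).card ≤
            Fintype.card (Equiv.Perm (Fin q)) := by
          intro r
          by_cases hr : r.1 = β e.1.1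
          · have h10 : univ.filter (fun π : Equiv.Perm (Fin q) =>
              r.1 ≠ β e.1.1 ∧ fix π (β e.1.1) (β e.1.2) r.1 = r.2) = ∅ := by
              rw [filter_eq_empty_iff]
              intro π _ h
              exact h.1 hr
            rw [h10, card_empty, mul_zero]
            exact Nat.zero_le _
          · refine le_trans (Nat.mul_le_mul_left _ (card_le_card fun π hπ => ?_))
              (card_fix (a := β e.1.1) (a' := r.1) (fun h => hr h.symm) (β e.1.2) r.2)
            exact mem_filter.2 ⟨mem_univ _, (mem_filter.1 hπ).2.2⟩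
        refine (sum_le_sum fun r _ => h9 r).trans (le_of_eq ?_)
        rw [sum_const, smul_eq_mul, card_product]
        rfl
      have h8 : ((q : ℝ) - 1) * B.card ≤ (sz S e.1.1 : ℝ) * sz S e.1.2 *
          Fintype.card (Equiv.Perm (Fin q)) := by
        have e1 : (((q - 1 : ℕ) : ℝ)) = (q : ℝ) - 1 := by
          rw [Nat.cast_sub (by omega)]
          norm_num
        rw [← e1]
        exact_mod_cast h7
      have h9 := Real.add_one_le_exp (c e)
      have h10 : (0 : ℝ) ≤ B.card := Nat.cast_nonneg _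
      have h11 : (B.card : ℝ) ≤ (sz S e.1.1 : ℝ) * sz S e.1.2 *
          Fintype.card (Equiv.Perm (Fin q)) / (q - 1) := by
        rw [le_div_iff₀ hq1]
        linarith
      calc (Fintype.card (Equiv.Perm (Fin q)) : ℝ) + (z - 1) * B.card ≤
          Fintype.card (Equiv.Perm (Fin q)) + z * B.card := by nlinarith
        _ ≤ Fintype.card (Equiv.Perm (Fin q)) + z * ((sz S e.1.1 : ℝ) * sz S e.1.2 *
          Fintype.card (Equiv.Perm (Fin q)) / (q - 1)) := by
            have := mul_le_mul_of_nonneg_left h11 (by linarith : (0 : ℝ) ≤ z)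
            linarith
        _ = Fintype.card (Equiv.Perm (Fin q)) * (c e + 1) := by
            rw [hc]
            ring
        _ ≤ _ := mul_le_mul_of_nonneg_left h9 (Nat.cast_nonneg _)
    · rw [if_neg hj, hF]
      simp only [if_neg hj]
      rw [sum_const, card_univ, nsmul_eq_mul, mul_one, Real.exp_zero, mul_one]
  obtain ⟨K, hK⟩ : ∃ K : ℝ, K = Fintype.card (Equiv.Perm (Fin q)) := ⟨_, rfl⟩
  have hK0 : 0 ≤ K := by rw [hK]; positivity
  rw [← hK] at h3
  have h4 : ∀ j, ∑ P : Pat n q, ∏ e : E n, F j e P.1 (P.2 e) ≤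
      (Fintype.card (Pat n q) : ℝ) * Real.exp (∑ e : E n, if p e = j then c e else 0) := by
    intro j
    rw [Fintype.sum_prod_type]
    have h5 : ∀ β : Fin n → Fin q, ∑ π : E n → Equiv.Perm (Fin q), ∏ e : E n, F j e β (π e) ≤
        K ^ Fintype.card (E n) * Real.exp (∑ e : E n, if p e = j then c e else 0) := by
      intro β
      rw [← Fintype.prod_sum (fun (e : E n) (π : Equiv.Perm (Fin q)) => F j e β π)]
      refine (prod_le_prod (fun e _ => sum_nonneg fun π _ => hF0 _ _ _ _)
        fun e _ => h3 j e β).trans (le_of_eq ?_)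
      rw [prod_mul_distrib, prod_const, card_univ, ← Real.exp_sum]
    refine (sum_le_sum fun β _ => h5 β).trans (le_of_eq ?_)
    rw [sum_const, card_univ, nsmul_eq_mul, Fintype.card_prod (Fin n → Fin q),
      Fintype.card_fun (α := E n), hK]
    push_cast
    ring
  refine (prod_le_prod (fun j _ => sum_nonneg fun P _ => prod_nonneg fun e _ => hF0 _ _ _ _)
    fun j _ => h4 j).trans ?_
  rw [prod_mul_distrib, prod_const, card_univ, Fintype.card_fin, ← Real.exp_sum]
  refine mul_le_mul_of_nonneg_left ?_ (by positivity)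
  apply Real.exp_le_exp.2
  rw [sum_comm]
  have h6 : ∀ e : E n, ∑ j, (if p e = j then c e else 0) = c e := by
    intro e
    rw [sum_ite_eq, if_pos (mem_univ _)]
  rw [sum_congr rfl fun e _ => h6 e]
  have h7 : ∑ e : E n, (sz S e.1.1 : ℝ) * sz S e.1.2 ≤ (S.card : ℝ) ^ 2 := by
    rw [← sum_sz S, sq]
    push_cast
    rw [sum_mul_sum, ← Fintype.sum_prod_type' (fun (u v : Fin n) => (sz S u : ℝ) * sz S v)]
    have h8 : ∑ e : E n, (sz S e.1.1 : ℝ) * sz S e.1.2 =
        ∑ e ∈ (univ : Finset (Fin n × Fin n)).filter (fun e => e.1 < e.2),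
          (sz S e.1 : ℝ) * sz S e.2 := by
      rw [← sum_subtype_eq_sum_filter]
      refine sum_congr ?_ fun _ _ => rfl
      ext e
      simp
    rw [h8]
    exact sum_le_sum_of_subset_of_nonneg (filter_subset _ _) fun _ _ _ => by positivity
  rw [hc]
  calc ∑ e : E n, z * ((sz S e.1.1 : ℝ) * sz S e.1.2) / (q - 1) =
      z * (∑ e : E n, (sz S e.1.1 : ℝ) * sz S e.1.2) / (q - 1) := by
        rw [mul_sum, sum_div]
    _ ≤ _ := by
        refine div_le_div_of_nonneg_right ?_ hq1.le
        exact mul_le_mul_of_nonneg_left h7 (by linarith)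

end Moments

end Pool.Agent.V11163.SS
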